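import Mathlib
import Pool.Agent.V11287.MS.Common
import Pool.Agent.V11287.MS.Mers

set_option autoImplicit false

/-!
# Generalized Mersenne primes with a typical real base: all `b` at once

For real `x > 1`, `|b| < x` let `M x b p = (x ^ p - b ^ p) / (x - b)`.  For a real sequence `s` let
`Exps s` be the set of the primes `p` for which the `p`-rough part (the product, with multiplicity,
of the prime factors larger than `p`) of `⌊s p⌋` is prime.  If `a`, `b` are coprime integers,
`|b| < a`, then all prime factors of `M a b p` are larger than `p` for every prime `p` not dividing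
`a - b`; so these `p` are in `Exps (M a b)` if and only if `(a ^ p - b ^ p) / (a - b)` is prime.

The conjecture of Lenstra, Pomerance and Wagstaff predicts for the exponents the behaviour of a
Poisson process on the logarithmic scale, and independence for different pairs.  We prove for almost
every real base `x`, for all `b` in a given countable set at once (for example for all the integers,
or for all the algebraic numbers `b`):
* all but finitely many pairs `p < q` of exponents satisfy `q - p ≥ p / (log p) ^ (1 + δ)`, for every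
  `δ > 0`;
* there are only finitely many exponents `p` for which `r p + s` is an exponent as well
  (`r ≥ 1`, `s ≥ 0`, `(r, s) ≠ (1, 0)`);
* for different `b`, `b'` there are only finitely many common exponents.
-/

namespace Pool.Agent.Results.MP_de9007_nt.AlmostEveryBase

open Filter Topology MeasureTheory

/-- The product, with multiplicity, of the prime factors of `m` that are larger than `p`. -/
def roughPart (p m : ℕ) : ℕ := (m.primeFactorsList.filter (fun r => p < r)).prod

/-- The exponents of the real sequence `s`. -/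
def Exps (s : ℕ → ℝ) : Set ℕ := {p | p.Prime ∧ (roughPart p ⌊s p⌋₊).Prime}

/-- The exponents of `s` are spread: small gaps and affine pairs are rare. -/
structure Spread (s : ℕ → ℝ) : Prop where
  /-- for every `δ > 0`, all but finitely many pairs of exponents `p < q` satisfy
  `q - p ≥ p / (log p) ^ (1 + δ)` -/
  gaps : ∀ δ : ℝ, 0 < δ → ∃ N : ℕ, ∀ p ∈ Exps s, ∀ q ∈ Exps s,
    N ≤ p → p < q → (p : ℝ) / (Real.log p) ^ (1 + δ) ≤ q - p
  /-- there are only finitely many exponents `p` for which `a p + b` is an exponent as well -/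
  affine : ∀ a b : ℕ, 1 ≤ a → ¬ (a = 1 ∧ b = 0) → {p | p ∈ Exps s ∧ a * p + b ∈ Exps s}.Finite

lemma sparse_open {U : Set ℝ} (hU : IsOpen U) (hU1 : ∀ x ∈ U, 1 < x) {A B c : ℝ → ℝ}
    (hA : ContDiffOn ℝ 2 A U) (hB : ContDiffOn ℝ 2 B U) (hc : ContDiffOn ℝ 2 c U)
    (hpos : ∀ x ∈ U, 0 < A x) (hcx : ∀ x ∈ U, |c x| < x) {R : Set (ℕ × ℕ)}
    (hR : ∀ r ∈ R, r.1 < r.2)
    (hs : Summable (R.indicator fun r => Real.log r.1 / r.1 * (Real.log r.2 / r.2))) :
    ∀ᵐ x : ℝ, x ∈ U → {r | r ∈ R ∧ r.1 ∈ Exps (fun p => A x * x ^ p - B x * c x ^ p) ∧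
      r.2 ∈ Exps (fun p => A x * x ^ p - B x * c x ^ p)}.Finite :=
  Pool.Agent.V11287.MS.pairs_open hU hU1 hA hB hc hpos hcx hR hs

lemma spread_open {U : Set ℝ} (hU : IsOpen U) (hU1 : ∀ x ∈ U, 1 < x) {A B c : ℝ → ℝ}
    (hA : ContDiffOn ℝ 2 A U) (hB : ContDiffOn ℝ 2 B U) (hc : ContDiffOn ℝ 2 c U)
    (hpos : ∀ x ∈ U, 0 < A x) (hcx : ∀ x ∈ U, |c x| < x) :
    ∀ᵐ x : ℝ, x ∈ U → Spread (fun p => A x * x ^ p - B x * c x ^ p) := by
  have h1 := ae_all_iff.2 fun m : ℕ => sparse_open hU hU1 hA hB hc hpos hcx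
    (R := Pool.Agent.V11287.MS.gapSet (1 / ((m : ℝ) + 1))) (fun r hr => hr.2.2.1)
    (Pool.Agent.V11287.MS.gap_summable (by positivity))
  have h2 := ae_all_iff.2 fun a : ℕ => ae_all_iff.2 fun b : ℕ =>
    sparse_open hU hU1 hA hB hc hpos hcx
    (R := {r | (1 ≤ a ∧ ¬ (a = 1 ∧ b = 0)) ∧ r ∈ Pool.Agent.V11287.MS.affSet a b})
    (fun r hr => by
      obtain ⟨⟨ha, hab⟩, hr1, hr2⟩ := hr
      rw [hr2]
      rcases Nat.lt_or_ge 1 a with h | h
      · have : 2 * r.1 ≤ a * r.1 := Nat.mul_le_mul_right _ h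
        omega
      · have ha1 : a = 1 := by omega
        subst ha1
        have hb : b ≠ 0 := fun hb => hab ⟨rfl, hb⟩
        omega)
    (by
      by_cases hab : 1 ≤ a ∧ ¬ (a = 1 ∧ b = 0)
      · have e : {r | (1 ≤ a ∧ ¬ (a = 1 ∧ b = 0)) ∧ r ∈ Pool.Agent.V11287.MS.affSet a b} =
            Pool.Agent.V11287.MS.affSet a b := by
          ext r
          exact ⟨fun h => h.2, fun h => ⟨hab, h⟩⟩
        rw [e]
        exact Pool.Agent.V11287.MS.aff_summable hab.1 b
      · have e : {r | (1 ≤ a ∧ ¬ (a = 1 ∧ b = 0)) ∧ r ∈ Pool.Agent.V11287.MS.affSet a b} = ∅ := by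
          ext r
          simp only [Set.mem_setOf_eq, Set.mem_empty_iff_false, iff_false]
          exact fun h => hab h.1
        rw [e, Set.indicator_empty]
        exact summable_zero)
  filter_upwards [h1, h2] with x hx1 hx2 hxU
  set s : ℕ → ℝ := fun p => A x * x ^ p - B x * c x ^ p with hs
  refine ⟨fun δ hδ => ?_, fun a b ha hab => ?_⟩
  · obtain ⟨m, hm⟩ := exists_nat_one_div_lt hδ
    obtain ⟨M, hM⟩ := ((hx1 m hxU).image Prod.fst).bddAbove
    refine ⟨max (M + 1) 3, fun p hp q hq hN hpq => ?_⟩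
    have hp3 : 3 ≤ p := (le_max_right _ _).trans hN
    have hp3' : (3 : ℝ) ≤ p := by exact_mod_cast hp3
    by_contra hlt
    push Not at hlt
    have hmem : (p, q) ∈ {r | r ∈ Pool.Agent.V11287.MS.gapSet (1 / ((m : ℝ) + 1)) ∧
        r.1 ∈ Exps s ∧ r.2 ∈ Exps s} := by
      refine ⟨⟨hp.1, hq.1, hpq, ?_⟩, hp, hq⟩
      refine hlt.trans_le ?_
      unfold Pool.Agent.V11287.MS.gp
      have hlog : 1 ≤ Real.log p := by
        rw [Real.le_log_iff_exp_le (by linarith)]
        have := Real.exp_one_lt_d9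
        linarith
      have h1 : (Real.log p) ^ (1 + 1 / ((m : ℝ) + 1)) ≤ (Real.log p) ^ (1 + δ) :=
        Real.rpow_le_rpow_of_exponent_le hlog (by linarith)
      have h2 : 0 < (Real.log p) ^ (1 + 1 / ((m : ℝ) + 1)) := by positivity
      exact div_le_div_of_nonneg_left (by linarith) h2 h1
    have h3 : p ≤ M := hM ⟨(p, q), hmem, rfl⟩
    have h4 : M + 1 ≤ p := (le_max_left _ _).trans hN
    omega
  · have h3 := (hx2 a b hxU).image Prod.fst
    refine ((Set.finite_lt_nat 3).union h3).subset ?_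
    rintro p ⟨hp1, hp2⟩
    by_cases hp3 : p < 3
    · exact Or.inl hp3
    · exact Or.inr ⟨(p, a * p + b), ⟨⟨⟨ha, hab⟩, by show 3 ≤ p; omega, rfl⟩, hp1, hp2⟩, rfl⟩

/-- `(x ^ p - b ^ p) / (x - b)`. -/
noncomputable def M (x b : ℝ) (p : ℕ) : ℝ := (x ^ p - b ^ p) / (x - b)

lemma exps_int {a b : ℤ} (hab : IsCoprime a b) (h1 : -a < b) (h2 : b < a) {p : ℕ}
    (hpd : ¬ (p : ℤ) ∣ a - b) :
    p ∈ Exps (M a b) ↔ p.Prime ∧ ∃ q : ℕ, q.Prime ∧ (q : ℤ) * (a - b) = a ^ p - b ^ p := by
  refine and_congr_right fun hp => ?_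
  have h3 : (a : ℝ) - b ≠ 0 := by
    have : (b : ℝ) < a := by exact_mod_cast h2
    linarith
  have h := Pool.Agent.V11287.MS.rough_quot hab h1 h2 hp hpd (x := M a b p) (by
    unfold M
    field_simp)
  have hgeom : (∑ i ∈ Finset.range p, a ^ i * b ^ (p - 1 - i)) * (a - b) = a ^ p - b ^ p :=
    (Commute.all a b).geom_sum₂_mul p
  have h4 : roughPart p ⌊M a b p⌋₊ = Pool.Agent.H305R2.roughPart p ⌊M a b p⌋₊ := rfl
  rw [← h4] at h
  rw [← h] at hgeom
  have h5 : a - b ≠ 0 := by omega
  constructor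
  · intro hq
    exact ⟨_, hq, hgeom⟩
  · rintro ⟨q, hq, hq2⟩
    have h6 : (q : ℤ) = ((roughPart p ⌊M a b p⌋₊ : ℕ) : ℤ) :=
      mul_right_cancel₀ h5 (hq2.trans hgeom.symm)
    have h7 : q = roughPart p ⌊M a b p⌋₊ := by exact_mod_cast h6
    rwa [← h7]

lemma M_eq {x b : ℝ} (p : ℕ) : 1 / (x - b) * x ^ p - 1 / (x - b) * b ^ p = M x b p := by
  unfold M
  ring

section one

variable (b : ℝ)

/-- the open set of the bases for the number `b` -/
def dom : Set ℝ := Set.Ioi (max 1 |b|)

lemma dom_open : IsOpen (dom b) := isOpen_Ioi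

lemma dom_one : ∀ x ∈ dom b, 1 < x := fun _ hx => (le_max_left _ _).trans_lt hx

lemma dom_lt : ∀ x ∈ dom b, |b| < x := fun _ hx => (le_max_right _ _).trans_lt hx

lemma dom_pos : ∀ x ∈ dom b, 0 < x - b := fun x hx => by
  have := (le_abs_self b).trans_lt (dom_lt b x hx)
  linarith

lemma dom_smooth : ContDiffOn ℝ 2 (fun x : ℝ => 1 / (x - b)) (dom b) :=
  contDiffOn_const.div (contDiffOn_id.sub contDiffOn_const) fun x hx => (dom_pos b x hx).ne'

lemma const_smooth (U : Set ℝ) : ContDiffOn ℝ 2 (fun _ : ℝ => b) U := contDiffOn_const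

end one

lemma spread_one (b : ℝ) : ∀ᵐ x : ℝ, 1 < x → |b| < x → Spread (M x b) := by
  filter_upwards [spread_open (dom_open b) (dom_one b) (dom_smooth b) (dom_smooth b)
    (const_smooth b _) (fun x hx => one_div_pos.2 (dom_pos b x hx)) (dom_lt b)] with x hx h1 h2
  have h3 := hx (show max 1 |b| < x from max_lt h1 h2)
  have e : (fun p : ℕ => 1 / (x - b) * x ^ p - 1 / (x - b) * b ^ p) = M x b := by
    funext p
    exact M_eq p
  rw [e] at h3
  exact h3

lemma common_two {b b' : ℝ} (hb : b ≠ b') :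
    ∀ᵐ x : ℝ, 1 < x → |b| < x → |b'| < x → (Exps (M x b) ∩ Exps (M x b')).Finite := by
  have hd : ∀ (c x : ℝ), x - c ≠ 0 → HasDerivAt (fun y : ℝ => 1 / (y - c)) (-1 / (x - c) ^ 2) x := by
    intro c x hx
    have e1 : HasDerivAt (fun y : ℝ => y - c) 1 x := (hasDerivAt_id x).sub_const c
    have e2 := e1.inv hx
    exact e2.congr_of_eventuallyEq (Eventually.of_forall fun y => one_div _)
  have h := Pool.Agent.V11287.MS.common_open ((dom_open b).inter (dom_open b'))
    (fun x hx => dom_one b x hx.1) ((dom_smooth b).mono Set.inter_subset_left)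
    ((dom_smooth b).mono Set.inter_subset_left) (const_smooth b _)
    (fun x hx => one_div_pos.2 (dom_pos b x hx.1)) (fun x hx => dom_lt b x hx.1)
    ((dom_smooth b').mono Set.inter_subset_right) ((dom_smooth b').mono Set.inter_subset_right)
    (const_smooth b' _) (fun x hx => one_div_pos.2 (dom_pos b' x hx.2))
    (fun x hx => dom_lt b' x hx.2)
  filter_upwards [h] with x hx h1 h2 h3
  have hm : x ∈ dom b := show max 1 |b| < x from max_lt h1 h2
  have hm' : x ∈ dom b' := show max 1 |b'| < x from max_lt h1 h3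
  have p1 := dom_pos b x hm
  have p2 := dom_pos b' x hm'
  have h4 := hx ⟨hm, hm'⟩ (by
    rw [(hd b x p1.ne').deriv, (hd b' x p2.ne').deriv]
    intro he
    apply hb
    have h5 : (x - b) ^ 2 * (x - b') ^ 2 ≠ 0 := by positivity
    have h6 : -1 / (x - b) ^ 2 * (1 / (x - b')) * ((x - b) ^ 2 * (x - b') ^ 2) = -(x - b') := by
      field_simp
    have h7 : 1 / (x - b) * (-1 / (x - b') ^ 2) * ((x - b) ^ 2 * (x - b') ^ 2) = -(x - b) := by
      field_simp
    rw [he, h7] at h6
    linarith)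
  have e : ∀ c : ℝ, (fun p : ℕ => 1 / (x - c) * x ^ p - 1 / (x - c) * c ^ p) = M x c := by
    intro c
    funext p
    exact M_eq p
  rw [← e b, ← e b']
  exact h4

/-- (1) For coprime integers `a`, `b` with `|b| < a` and every `p` not dividing `a - b`: `p` is an
exponent of `M a b` if and only if `p` and `(a ^ p - b ^ p) / (a - b)` are prime.
(2) For every countable set `B` of real numbers and almost every real `x > 1`: for all `b` in `B` with
`|b| < x` the exponents of `M x b` are spread, and for different `b`, `b'` in `B` with `|b| < x`,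
`|b'| < x` there are only finitely many common exponents of `M x b` and `M x b'`.
(3) For every set `R` of pairs `p < q` with `∑_{(p,q) ∈ R} (log p / p) (log q / q) < ∞`, every
countable set `B` and almost every `x > 1`, for all `b` in `B` with `|b| < x`, only finitely many
pairs in `R` consist of two exponents of `M x b`. -/
theorem result :
    (∀ a b : ℤ, IsCoprime a b → -a < b → b < a → ∀ p : ℕ, ¬ (p : ℤ) ∣ a - b →
      (p ∈ Exps (M a b) ↔ p.Prime ∧ ∃ q : ℕ, q.Prime ∧ (q : ℤ) * (a - b) = a ^ p - b ^ p)) ∧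
    (∀ B : Set ℝ, B.Countable → ∀ᵐ x : ℝ, 1 < x →
      (∀ b ∈ B, |b| < x → Spread (M x b)) ∧
      (∀ b ∈ B, ∀ b' ∈ B, |b| < x → |b'| < x → b ≠ b' →
        (Exps (M x b) ∩ Exps (M x b')).Finite)) ∧
    (∀ R : Set (ℕ × ℕ), (∀ r ∈ R, r.1 < r.2) →
      Summable (R.indicator fun r => Real.log r.1 / r.1 * (Real.log r.2 / r.2)) →
      ∀ B : Set ℝ, B.Countable → ∀ᵐ x : ℝ, 1 < x → ∀ b ∈ B, |b| < x →
        {r | r ∈ R ∧ r.1 ∈ Exps (M x b) ∧ r.2 ∈ Exps (M x b)}.Finite) := by
  refine ⟨fun a b hab h1 h2 p hpd => exps_int hab h1 h2 hpd, fun B hB => ?_,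
    fun R hR hs B hB => ?_⟩
  · have h1 : ∀ᵐ x : ℝ, ∀ b ∈ B, 1 < x → |b| < x → Spread (M x b) :=
      (ae_ball_iff hB).2 fun b _ => spread_one b
    have h2 : ∀ᵐ x : ℝ, ∀ b ∈ B, ∀ b' ∈ B, b ≠ b' → 1 < x → |b| < x → |b'| < x →
        (Exps (M x b) ∩ Exps (M x b')).Finite :=
      (ae_ball_iff hB).2 fun b _ => (ae_ball_iff hB).2 fun b' _ => by
        by_cases hb : b = b'
        · exact Eventually.of_forall fun x h => absurd hb h
        · filter_upwards [common_two hb] with x hx _
          exact hx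
    filter_upwards [h1, h2] with x hx1 hx2 hx
    exact ⟨fun b hb h => hx1 b hb hx h, fun b hb b' hb' h h' hne => hx2 b hb b' hb' hne hx h h'⟩
  · have h1 : ∀ᵐ x : ℝ, ∀ b ∈ B, 1 < x → |b| < x →
        {r | r ∈ R ∧ r.1 ∈ Exps (M x b) ∧ r.2 ∈ Exps (M x b)}.Finite :=
      (ae_ball_iff hB).2 fun b _ => by
        filter_upwards [sparse_open (dom_open b) (dom_one b) (dom_smooth b) (dom_smooth b)
          (const_smooth b _) (fun x hx => one_div_pos.2 (dom_pos b x hx)) (dom_lt b) hR hs]
          with x hx h1 h2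
        have h3 := hx (show max 1 |b| < x from max_lt h1 h2)
        have e : (fun p : ℕ => 1 / (x - b) * x ^ p - 1 / (x - b) * b ^ p) = M x b := by
          funext p
          exact M_eq p
        rw [e] at h3
        exact h3
    filter_upwards [h1] with x hx h b hb hbx
    exact hx b hb h hbx

end Pool.Agent.Results.MP_de9007_nt.AlmostEveryBase
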