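import Mathlib
import Pool.Agent.V60.XB.Scaled
import Pool.Agent.H447R2.ML.Spec

set_option autoImplicit false

/-!
# The exponents of different pairs `(a, b)` avoid each other, for almost every amplitude

For integers `a > 1`, `-a < b < a`, a real `β > 0` and a prime `p` let `N a b β p` be
`⌊(β a ^ p - b ^ p) / (a - b)⌋` and `W a b β p` its `p`-rough part (the product, with multiplicity, of
its prime factors larger than `p`).  At the amplitude `β = 1` both are the number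
`(a ^ p - b ^ p) / (a - b)` itself, for ALL coprime pairs `(a, b)` and `p` prime to `a - b`.  The
exponents of the pair `(a, b)` are the primes `p` with `W a b β p` prime; their number up to `n` is
asymptotic to `(e ^ γ / log a) log n` for almost every `β` (`FixedPairLaw`, starting library).

We prove that for almost every `β`, simultaneously for all pairs `(a, b)` and `(a', b')` with
`a < a'`, an exponent `p` of the first and an exponent `q` of the second pair satisfy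
`|q - p| ≥ m / (log m) ^ (1 + ε)`, `m = min p q`, as soon as `m` is large; in particular they have
only finitely many common exponents.  More generally, let `D` be a set of pairs `(p, q)` for which
the sizes of the two numbers differ, `|p log a - q log a'| ≥ c (p + q)`, with a finite sum of
`(log p / p) (log q / q)`; then for almost every `β` only finitely many pairs in `D` consist of an
exponent of `(a, b)` and one of `(a', b')`.
-/

namespace Pool.Agent.Results.MP_de9007_nt.DifferentPairs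

open Filter Topology MeasureTheory

/-- The product, with multiplicity, of the prime factors of `m` that are larger than `p`. -/
def roughPart (p m : ℕ) : ℕ := (m.primeFactorsList.filter (fun r => p < r)).prod

/-- The integer `⌊(β a ^ p - b ^ p) / (a - b)⌋`. -/
noncomputable def N (a b : ℤ) (β : ℝ) (p : ℕ) : ℕ :=
  ⌊(β * (a : ℝ) ^ p - (b : ℝ) ^ p) / ((a : ℝ) - b)⌋₊

/-- The `p`-rough part of `⌊(β a ^ p - b ^ p) / (a - b)⌋`. -/
noncomputable def W (a b : ℤ) (β : ℝ) (p : ℕ) : ℕ := roughPart p (N a b β p)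

/-- The exponents of the pair `(a, b)`: the primes `p` with `W a b β p` prime. -/
def Exponent (a b : ℤ) (β : ℝ) (p : ℕ) : Prop := p.Prime ∧ (W a b β p).Prime

lemma N_special {a b : ℤ} (h1 : -a < b) (h2 : b < a) (p : ℕ) :
    (N a b 1 p : ℤ) = ∑ i ∈ Finset.range p, a ^ i * b ^ (p - 1 - i) := by
  have hab : (0 : ℝ) < (a : ℝ) - b := by
    have : (b : ℝ) < a := by exact_mod_cast h2
    linarith
  have hgeom : (∑ i ∈ Finset.range p, a ^ i * b ^ (p - 1 - i)) * (a - b) = a ^ p - b ^ p :=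
    (Commute.all a b).geom_sum₂_mul p
  set R := ∑ i ∈ Finset.range p, a ^ i * b ^ (p - 1 - i) with hR
  have hpow : b ^ p ≤ a ^ p := by
    have h3 : |b| < a := abs_lt.2 ⟨h1, h2⟩
    calc b ^ p ≤ |b ^ p| := le_abs_self _
      _ = |b| ^ p := abs_pow b p
      _ ≤ a ^ p := pow_le_pow_left₀ (abs_nonneg _) h3.le p
  have hR0 : 0 ≤ R := by
    by_contra hc
    rw [not_le] at hc
    have : R * (a - b) < 0 := mul_neg_of_neg_of_pos hc (by omega)
    omega
  have hval : (1 * (a : ℝ) ^ p - (b : ℝ) ^ p) / ((a : ℝ) - b) = (R : ℝ) := by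
    have h4 : ((R : ℤ) : ℝ) * ((a : ℝ) - b) = (a : ℝ) ^ p - (b : ℝ) ^ p := by exact_mod_cast hgeom
    field_simp
    linarith
  unfold N
  rw [hval]
  obtain ⟨r, hr⟩ := Int.eq_ofNat_of_zero_le hR0
  rw [hr]
  simp

lemma special {a b : ℤ} (h1 : -a < b) (h2 : b < a) (p : ℕ) :
    (N a b 1 p : ℤ) = (a ^ p - b ^ p) / (a - b) := by
  rw [N_special h1 h2 p, ← (Commute.all a b).geom_sum₂_mul p,
    Int.mul_ediv_cancel _ (by omega)]

lemma W_special {a b : ℤ} (hab : IsCoprime a b) (h1 : -a < b) (h2 : b < a) {p : ℕ} (hp : p.Prime)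
    (hpd : ¬ (p : ℤ) ∣ a - b) : (W a b 1 p : ℤ) = (a ^ p - b ^ p) / (a - b) := by
  have h := Pool.Agent.H447R2.ML.rough_quot hab h1 h2 hp hpd rfl
  rw [← (Commute.all a b).geom_sum₂_mul p, Int.mul_ediv_cancel _ (by omega), ← h]
  have e1 : (1 * (a : ℝ) ^ p - (b : ℝ) ^ p) / ((a : ℝ) - b) =
      1 / ((a : ℝ) - b) * (a : ℝ) ^ p - (b : ℝ) ^ p / ((a : ℝ) - b) := by ring
  unfold W N
  rw [e1]
  rfl

/-- **Main theorem.** -/
theorem result :
    -- at the amplitude `1` the exponents are those of the conjecture, for all pairs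
    (∀ a b : ℤ, -a < b → b < a → ∀ p : ℕ, (N a b 1 p : ℤ) = (a ^ p - b ^ p) / (a - b)) ∧
    (∀ a b : ℤ, IsCoprime a b → -a < b → b < a → ∀ p : ℕ, ¬ (p : ℤ) ∣ a - b →
      (Exponent a b 1 p ↔ p.Prime ∧ Prime ((a ^ p - b ^ p) / (a - b)))) ∧
    -- exponents of different pairs avoid each other, simultaneously for all pairs
    (∀ᵐ β : ℝ, 0 < β → ∀ a b a' b' : ℤ, 1 < a → -a < b → b < a → a < a' → -a' < b' → b' < a' →
      ∀ ε : ℝ, 0 < ε → ∃ P : ℕ, ∀ p q : ℕ, P ≤ p → P ≤ q → Exponent a b β p → Exponent a' b' β q →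
      ((min p q : ℕ) : ℝ) / Real.log ((min p q : ℕ) : ℝ) ^ (1 + ε) ≤ |(q : ℝ) - p|) ∧
    -- only finitely many common exponents
    (∀ᵐ β : ℝ, 0 < β → ∀ a b a' b' : ℤ, 1 < a → -a < b → b < a → a < a' → -a' < b' → b' < a' →
      {p | Exponent a b β p ∧ Exponent a' b' β p}.Finite) ∧
    -- sets of pairs of exponents with separated sizes
    (∀ (a b a' b' : ℤ) (A : ℕ) (c : ℝ) (D : Set (ℕ × ℕ)), 1 < a → -a < b → b < a →
      1 < a' → -a' < b' → b' < a' → 0 < c →
      (∀ z ∈ D, z.2 ≤ A * z.1 ∧ z.1 ≤ A * z.2 ∧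
        c * (z.1 + z.2) ≤ |(z.1 : ℝ) * Real.log a - z.2 * Real.log a'|) →
      Summable (fun z : D => (Real.log z.1.1 / z.1.1) * (Real.log z.1.2 / z.1.2)) →
      ∀ᵐ β : ℝ, 0 < β → {z | z ∈ D ∧ Exponent a b β z.1 ∧ Exponent a' b' β z.2}.Finite) := by
  have hbd : ∀ (a b : ℤ), |(b : ℝ)| < (a : ℝ) → ∀ p : ℕ,
      |(fun p : ℕ => -((b : ℝ) ^ p / ((a : ℝ) - b))) p| ≤ 1 / ((a : ℝ) - b) * |(b : ℝ)| ^ p := by
    intro a b hbr p
    have hab : (0 : ℝ) < (a : ℝ) - b := by
      have := le_abs_self (b : ℝ)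
      linarith
    simp only
    rw [abs_neg, abs_div, abs_pow, abs_of_pos hab]
    exact le_of_eq (by ring)
  have habs : ∀ (a b : ℤ), -a < b → b < a → |(b : ℝ)| < (a : ℝ) ∧ (0 : ℝ) < 1 / ((a : ℝ) - b) := by
    intro a b h1 h2
    have h3 : |b| < a := abs_lt.2 ⟨h1, h2⟩
    have h4 : |(b : ℝ)| < (a : ℝ) := by exact_mod_cast h3
    refine ⟨h4, ?_⟩
    have h5 : (b : ℝ) < a := by exact_mod_cast h2
    exact one_div_pos.2 (by linarith)
  have e : ∀ (a b : ℤ) (β : ℝ) (m : ℕ),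
      ⌊1 / ((a : ℝ) - b) * β * (a : ℝ) ^ m + (fun p : ℕ => -((b : ℝ) ^ p / ((a : ℝ) - b))) m⌋₊ =
        N a b β m := by
    intro a b β m
    unfold N
    congr 1
    ring
  have hmain : ∀ᵐ β : ℝ, 0 < β → ∀ a b a' b' : ℤ, 1 < a → -a < b → b < a → a < a' → -a' < b' →
      b' < a' → ∀ ε : ℝ, 0 < ε → ∃ P : ℕ, ∀ p q : ℕ, P ≤ p → P ≤ q → Exponent a b β p →
      Exponent a' b' β q →
      ((min p q : ℕ) : ℝ) / Real.log ((min p q : ℕ) : ℝ) ^ (1 + ε) ≤ |(q : ℝ) - p| := by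
    have h : ∀ a b a' b' : ℤ, ∀ᵐ β : ℝ, 1 < a → -a < b → b < a → a < a' → -a' < b' →
        b' < a' → 0 < β → ∀ ε : ℝ, 0 < ε → ∃ P : ℕ, ∀ p q : ℕ, P ≤ p → P ≤ q → Exponent a b β p →
        Exponent a' b' β q →
        ((min p q : ℕ) : ℝ) / Real.log ((min p q : ℕ) : ℝ) ^ (1 + ε) ≤ |(q : ℝ) - p| := by
      intro a b a' b'
      by_cases hc : 1 < a ∧ -a < b ∧ b < a ∧ a < a' ∧ -a' < b' ∧ b' < a'
      swap
      · exact Eventually.of_forall fun β h1 h2 h3 h4 h5 h6 => absurd ⟨h1, h2, h3, h4, h5, h6⟩ hc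
      obtain ⟨h1, h2, h3, h4, h5, h6⟩ := hc
      obtain ⟨k1, k2⟩ := habs a b h2 h3
      obtain ⟨k3, k4⟩ := habs a' b' h5 h6
      have ha1 : (1 : ℝ) < a := by exact_mod_cast h1
      have haa : (a : ℝ) < a' := by exact_mod_cast h4
      filter_upwards [Pool.Agent.V60.XB.xclose' ha1 haa (abs_nonneg _) k1 (abs_nonneg _) k3
        (hbd a b k1) (hbd a' b' k3) k2 k4] with β h _ _ _ _ _ _ hβ ε hε
      obtain ⟨P, hP⟩ := h hβ ε hε
      refine ⟨P, fun p q hp hq hep heq => hP p q hp hq hep.1 heq.1 ?_ ?_⟩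
      · rw [e a b β p]; exact hep.2
      · rw [e a' b' β q]; exact heq.2
    filter_upwards [ae_all_iff.2 fun a => ae_all_iff.2 fun b => ae_all_iff.2 fun a' =>
      ae_all_iff.2 (h a b a')] with β hβ h0 a b a' b' h1 h2 h3 h4 h5 h6 ε hε
    exact hβ a b a' b' h1 h2 h3 h4 h5 h6 h0 ε hε
  refine ⟨fun a b h1 h2 p => special h1 h2 p, fun a b hab h1 h2 p hpd => ?_, hmain, ?_, ?_⟩
  · unfold Exponent
    refine and_congr_right fun hp => ?_
    rw [← W_special hab h1 h2 hp hpd]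
    exact Nat.prime_iff_prime_int
  · filter_upwards [hmain] with β h hβ a b a' b' h1 h2 h3 h4 h5 h6
    obtain ⟨P, hP⟩ := h hβ a b a' b' h1 h2 h3 h4 h5 h6 1 one_pos
    refine (Set.finite_Iio (P + 3)).subset fun p hp => ?_
    rw [Set.mem_Iio]
    by_contra hcon
    rw [not_lt] at hcon
    exact Pool.Agent.V60.XB.no_common (by omega) (hP p p (by omega) (by omega) hp.1 hp.2)
  · intro a b a' b' A c D h1 h2 h3 h4 h5 h6 hc hD hs
    obtain ⟨k1, k2⟩ := habs a b h2 h3
    obtain ⟨k3, k4⟩ := habs a' b' h5 h6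
    have ha1 : (1 : ℝ) < a := by exact_mod_cast h1
    have ha1' : (1 : ℝ) < a' := by exact_mod_cast h4
    filter_upwards [Pool.Agent.V60.XB.xsets' ha1 ha1' (abs_nonneg _) k1 (abs_nonneg _) k3
        (hbd a b k1) (hbd a' b' k3) k2 k4 hc D
      (fun z hz => ⟨(hD z hz).1, (hD z hz).2.1⟩) (fun z hz => (hD z hz).2.2) hs] with β h hβ
    refine (h hβ).subset ?_
    rintro z ⟨hz, h1, h2⟩
    refine ⟨hz, ?_, ?_⟩
    · rw [e a b β z.1]; exact h1.2
    · rw [e a' b' β z.2]; exact h2.2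

end Pool.Agent.Results.MP_de9007_nt.DifferentPairs
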