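import Mathlib
import Pool.Agent.TH888.R.Base
import Pool.Agent.H447R2.ML.Spec

set_option autoImplicit false

/-!
# The Lenstra-Pomerance-Wagstaff law for all integer pairs: error term and sets of exponents

For integers `a > 1`, `-a < b < a`, a real `β > 0` and a prime `p` let `W a b β p` be the `p`-rough
part (the product, with multiplicity, of the prime factors larger than `p`) of
`⌊β a ^ p - b ^ p / (a - b)⌋`.  At the amplitude `β = 1 / (a - b)` this is `(a ^ p - b ^ p) / (a - b)`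
itself (for coprime `a`, `b` and `p` prime to `a - b`).  For a set `S` let `M S a b β n` be the number
of primes `p ≤ n` in `S` with `W a b β p` prime, and let `V S n` be the sum of `log p / p` over the
primes `p ≤ n` in `S`.  We prove that for almost every `β > 0`, simultaneously for all pairs `(a, b)`,
the number of primes `p ≤ n` with `W a b β p` prime is
`(e ^ γ / log a) log n + O((log n) ^ (1/2) (log log n) ^ (5/2))`, that for every set `S`, almost every
`β > 0` and all pairs there are infinitely many such primes `p` in `S` if and only if `V S n` is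
unbounded, and that in this case
`M S a b β n = (e ^ γ / log a) V S n + O((V L) ^ (1/2) (log (V L)) ^ 2)` with `V = V S n` and
`L = log log n`.
-/

namespace Pool.Agent.Results.MP_de9007_nt.FixedPairError

open Filter Topology MeasureTheory Asymptotics

/-- The product, with multiplicity, of the prime factors of `m` that are larger than `p`. -/
def roughPart (p m : ℕ) : ℕ := (m.primeFactorsList.filter (fun r => p < r)).prod

/-- The `p`-rough part of `⌊β a ^ p - b ^ p / (a - b)⌋`. -/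
noncomputable def W (a b : ℤ) (β : ℝ) (p : ℕ) : ℕ :=
  roughPart p ⌊β * (a : ℝ) ^ p - (b : ℝ) ^ p / ((a : ℝ) - b)⌋₊

open Classical in
/-- The number of primes `p ≤ n` in the set `S` for which `W a b β p` is prime. -/
noncomputable def M (S : Set ℕ) (a b : ℤ) (β : ℝ) (n : ℕ) : ℕ :=
  ((Finset.range (n + 1)).filter (fun p => p.Prime ∧ p ∈ S ∧ (W a b β p).Prime)).card

open Classical in
/-- The sum of `log p / p` over the primes `p ≤ n` in the set `S`. -/
noncomputable def V (S : Set ℕ) (n : ℕ) : ℝ :=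
  ∑ p ∈ (Finset.range (n + 1)).filter (fun p => p.Prime ∧ p ∈ S), Real.log p / p

lemma V_eq (S : Set ℕ) (n : ℕ) : V S n = Pool.Agent.TH888.R.VS S n := by
  classical
  unfold V Pool.Agent.TH888.R.VS
  rw [Finset.sum_filter]
  refine Finset.sum_congr rfl fun p _ => ?_
  by_cases h : p.Prime ∧ p ∈ S
  · rw [if_pos h, if_pos ⟨h.2, h.1⟩]
    rfl
  · rw [if_neg h, if_neg fun h1 => h ⟨h1.2, h1.1⟩]

/-- The special amplitude. -/
lemma special {a b : ℤ} (hab : IsCoprime a b) (h1 : -a < b) (h2 : b < a) {p : ℕ} (hp : p.Prime)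
    (hpd : ¬ (p : ℤ) ∣ a - b) : (W a b (1 / ((a : ℝ) - b)) p : ℤ) = (a ^ p - b ^ p) / (a - b) := by
  have h := Pool.Agent.H447R2.ML.rough_quot hab h1 h2 hp hpd rfl
  rw [← (Commute.all a b).geom_sum₂_mul p, Int.mul_ediv_cancel _ (by omega), ← h]
  rfl

lemma M_eq (S : Set ℕ) {a b : ℤ} {A : ℕ} (hA : (a : ℝ) = (A : ℝ)) (β : ℝ) (n : ℕ) :
    M S a b β n = Pool.Agent.TH888.R.cS S
      (fun p => ⌊β * (A : ℝ) ^ p + (fun p : ℕ => -((b : ℝ) ^ p / ((A : ℝ) - b))) p⌋₊) n := by
  classical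
  unfold M Pool.Agent.TH888.R.cS W
  rw [hA]
  simp only [← sub_eq_add_neg]
  rfl

/-- the law and the dichotomy at one point -/
def Good (S : Set ℕ) (a b : ℤ) (β : ℝ) : Prop :=
  (Tendsto (Pool.Agent.TH888.R.VS S) atTop atTop → ∃ B : ℝ, 0 ≤ B ∧ ∀ n : ℕ, 3 ≤ n →
    |(M S a b β n : ℝ) - Real.exp Real.eulerMascheroniConstant / Real.log a *
      Pool.Agent.TH888.R.VS S n| ≤
        B * Pool.Agent.TH888.R.gr (Pool.Agent.TH888.R.VS S n * (1 + Real.log (Real.log n)))) ∧
  ({p : ℕ | p.Prime ∧ p ∈ S ∧ (W a b β p).Prime}.Infinite ↔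
    Tendsto (Pool.Agent.TH888.R.VS S) atTop atTop)

lemma good (S : Set ℕ) : ∀ᵐ β : ℝ, 0 < β → ∀ a b : ℤ, 1 < a → -a < b → b < a → Good S a b β := by
  have h : ∀ a b : ℤ, ∀ᵐ β : ℝ, 1 < a → -a < b → b < a → 0 < β → Good S a b β := by
    intro a b
    by_cases hc : 1 < a ∧ -a < b ∧ b < a
    swap
    · exact Eventually.of_forall fun β h1 h2 h3 => absurd ⟨h1, h2, h3⟩ hc
    obtain ⟨ha, h1, h2⟩ := hc
    obtain ⟨A, hA⟩ := Int.eq_ofNat_of_zero_le (show 0 ≤ a by omega)
    have hA2 : 2 ≤ A := by omega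
    have hA1 : (1 : ℝ) < A := by exact_mod_cast (by omega : 1 < A)
    have hbr : |(b : ℝ)| < (A : ℝ) := by
      have h3 : |b| < a := abs_lt.2 ⟨h1, h2⟩
      rw [hA] at h3
      exact_mod_cast h3
    have hab : (0 : ℝ) < (A : ℝ) - b := by
      have := le_abs_self (b : ℝ)
      linarith
    have hg : ∀ p : ℕ, |(fun p : ℕ => -((b : ℝ) ^ p / ((A : ℝ) - b))) p| ≤
        1 / ((A : ℝ) - b) * |(b : ℝ)| ^ p := by
      intro p
      simp only
      rw [abs_neg, abs_div, abs_pow, abs_of_pos hab]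
      exact le_of_eq (by ring)
    have e' : (a : ℝ) = (A : ℝ) := by rw [hA]; simp
    filter_upwards [Pool.Agent.TH888.R.pt_floor (α := (A : ℝ)) hA1 (abs_nonneg _) hbr hg
      (Pool.Agent.TH888.R.near_base hA2 (abs_nonneg _) hbr hg) S] with β hβ _ _ _ h0
    have hpt := hβ h0
    have hset : {p : ℕ | p.Prime ∧ p ∈ S ∧ (W a b β p).Prime} =
        {p : ℕ | p.Prime ∧ p ∈ S ∧ (Pool.Agent.H305R2.roughPart p
          (⌊β * (A : ℝ) ^ p + (fun p : ℕ => -((b : ℝ) ^ p / ((A : ℝ) - b))) p⌋₊)).Prime} := by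
      unfold W
      rw [e']
      simp only [← sub_eq_add_neg]
      rfl
    refine ⟨fun hV => ?_, ?_⟩
    · obtain ⟨B, hB, h⟩ := hpt.law hV
      refine ⟨B, hB, fun n hn => ?_⟩
      rw [M_eq S e', e']
      exact h n hn
    · rw [hset]
      constructor
      · intro hi
        by_contra hn
        exact hi (hpt.fin hn)
      · exact hpt.inf
  filter_upwards [ae_all_iff.2 fun a => ae_all_iff.2 (h a)] with β hβ h0 a b ha h1 h2
  exact hβ a b ha h1 h2 h0

/-- **Main theorem.** -/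
theorem result :
    -- at the amplitude `1 / (a - b)` the values are the numbers of the conjecture
    (∀ a b : ℤ, IsCoprime a b → -a < b → b < a → ∀ p : ℕ, p.Prime → ¬ (p : ℤ) ∣ a - b →
      (W a b (1 / ((a : ℝ) - b)) p : ℤ) = (a ^ p - b ^ p) / (a - b)) ∧
    -- the law with error term, simultaneously for all pairs
    (∀ᵐ β : ℝ, 0 < β → ∀ a b : ℤ, 1 < a → -a < b → b < a →
      (fun n : ℕ => (M Set.univ a b β n : ℝ) -
        Real.exp Real.eulerMascheroniConstant / Real.log a * Real.log n) =O[atTop]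
      (fun n : ℕ => Real.sqrt (Real.log n) * (Real.log (Real.log n)) ^ ((5 : ℝ) / 2))) ∧
    -- sets of exponents
    (∀ S : Set ℕ, Tendsto (V S) atTop atTop → ∀ᵐ β : ℝ, 0 < β →
      ∀ a b : ℤ, 1 < a → -a < b → b < a →
      (fun n : ℕ => (M S a b β n : ℝ) -
        Real.exp Real.eulerMascheroniConstant / Real.log a * V S n) =O[atTop]
      (fun n : ℕ => Real.sqrt (V S n * Real.log (Real.log n)) *
        (Real.log (V S n * Real.log (Real.log n))) ^ 2)) ∧
    (∀ S : Set ℕ, ∀ᵐ β : ℝ, 0 < β → ∀ a b : ℤ, 1 < a → -a < b → b < a →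
      ({p : ℕ | p.Prime ∧ p ∈ S ∧ (W a b β p).Prime}.Infinite ↔ Tendsto (V S) atTop atTop)) := by
  have hV : ∀ S, V S = Pool.Agent.TH888.R.VS S := fun S => funext fun n => V_eq S n
  refine ⟨fun a b hab h1 h2 p hp hpd => special hab h1 h2 hp hpd, ?_, fun S hS => ?_, fun S => ?_⟩
  · filter_upwards [good Set.univ] with β hβ h0 a b ha h1 h2
    obtain ⟨B, hB, h⟩ := (hβ h0 a b ha h1 h2).1 Pool.Agent.TH888.R.VS_univ_tendsto
    exact Pool.Agent.TH888.R.bigO_all hB h
  · rw [hV] at hS ⊢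
    filter_upwards [good S] with β hβ h0 a b ha h1 h2
    obtain ⟨B, hB, h⟩ := (hβ h0 a b ha h1 h2).1 hS
    exact Pool.Agent.TH888.R.bigO_set hB hS h
  · rw [hV]
    filter_upwards [good S] with β hβ h0 a b ha h1 h2
    exact (hβ h0 a b ha h1 h2).2

end Pool.Agent.Results.MP_de9007_nt.FixedPairError
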