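import Mathlib
import Pool.Agent.V60.Gap.Floor
import Pool.Agent.H447R2.ML.Spec

set_option autoImplicit false

/-!
# The exponents of every pair `(a, b)` have no small multiplicative gaps, for almost every amplitude

For integers `a > 1`, `-a < b < a`, a real `β > 0` and a prime `p` let `N a b β p` be
`⌊β a ^ p - b ^ p / (a - b)⌋` and `W a b β p` its `p`-rough part (the product, with multiplicity, of
its prime factors larger than `p`).  At the amplitude `β = 1 / (a - b)` both are the number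
`(a ^ p - b ^ p) / (a - b)` itself, for coprime `a`, `b` and `p` prime to `a - b`.  The exponents of
`β` are the primes `p` with `W a b β p` prime; their number up to `n` is asymptotic to
`(e ^ γ / log a) log n` for almost every `β` (`FixedPairLaw`, starting library).

We prove that for almost every `β`, simultaneously for all pairs `(a, b)`, two exponents `p < q` with
`q < p + p / (log p) ^ (1 + ε)` satisfy, for all large `p`, `N q = a ^ (q - p) * N p`, `W q = W p` and
`a ^ (q - p) ≤ (log p) ^ (1 + ε)`; at the special amplitude the first equation never holds.  More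
generally this holds, apart from finitely many pairs, for the pairs `(p, q)` in any set `D` with a
finite sum of `(log p / p) ^ 2`.
-/

namespace Pool.Agent.Results.MP_de9007_nt.SmallGaps

open Filter Topology MeasureTheory

/-- The product, with multiplicity, of the prime factors of `m` that are larger than `p`. -/
def roughPart (p m : ℕ) : ℕ := (m.primeFactorsList.filter (fun r => p < r)).prod

/-- The integer `⌊β a ^ p - b ^ p / (a - b)⌋`. -/
noncomputable def N (a b : ℤ) (β : ℝ) (p : ℕ) : ℕ :=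
  ⌊β * (a : ℝ) ^ p - (b : ℝ) ^ p / ((a : ℝ) - b)⌋₊

/-- The `p`-rough part of `⌊β a ^ p - b ^ p / (a - b)⌋`. -/
noncomputable def W (a b : ℤ) (β : ℝ) (p : ℕ) : ℕ := roughPart p (N a b β p)

/-- The exponents: the primes `p` with `W a b β p` prime. -/
def Exponent (a b : ℤ) (β : ℝ) (p : ℕ) : Prop := p.Prime ∧ (W a b β p).Prime

lemma N_special {a b : ℤ} (h1 : -a < b) (h2 : b < a) (p : ℕ) :
    (N a b (1 / ((a : ℝ) - b)) p : ℤ) = ∑ i ∈ Finset.range p, a ^ i * b ^ (p - 1 - i) := by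
  have hab : (0 : ℝ) < (a : ℝ) - b := by
    have : (b : ℝ) < a := by exact_mod_cast h2
    linarith
  have hgeom : (∑ i ∈ Finset.range p, a ^ i * b ^ (p - 1 - i)) * (a - b) = a ^ p - b ^ p :=
    (Commute.all a b).geom_sum₂_mul p
  set R := ∑ i ∈ Finset.range p, a ^ i * b ^ (p - 1 - i) with hR
  have hpow : b ^ p ≤ a ^ p := by
    have h3 : |b| < a := abs_lt.2 ⟨h1, h2⟩
    calc b ^ p ≤ |b ^ p| := le_abs_self _
      _ = |b| ^ p := abs_pow b p
      _ ≤ a ^ p := pow_le_pow_left₀ (abs_nonneg _) h3.le p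
  have hR0 : 0 ≤ R := by
    by_contra hc
    rw [not_le] at hc
    have : R * (a - b) < 0 := mul_neg_of_neg_of_pos hc (by omega)
    omega
  have hval : 1 / ((a : ℝ) - b) * (a : ℝ) ^ p - (b : ℝ) ^ p / ((a : ℝ) - b) = (R : ℝ) := by
    have h4 : ((R : ℤ) : ℝ) * ((a : ℝ) - b) = (a : ℝ) ^ p - (b : ℝ) ^ p := by exact_mod_cast hgeom
    field_simp
    linarith
  unfold N
  rw [hval]
  obtain ⟨r, hr⟩ := Int.eq_ofNat_of_zero_le hR0
  rw [hr]
  simp

lemma special {a b : ℤ} (h1 : -a < b) (h2 : b < a) (p : ℕ) :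
    (N a b (1 / ((a : ℝ) - b)) p : ℤ) = (a ^ p - b ^ p) / (a - b) := by
  rw [N_special h1 h2 p, ← (Commute.all a b).geom_sum₂_mul p,
    Int.mul_ediv_cancel _ (by omega)]

lemma W_special {a b : ℤ} (hab : IsCoprime a b) (h1 : -a < b) (h2 : b < a) {p : ℕ} (hp : p.Prime)
    (hpd : ¬ (p : ℤ) ∣ a - b) : (W a b (1 / ((a : ℝ) - b)) p : ℤ) = (a ^ p - b ^ p) / (a - b) := by
  have h := Pool.Agent.H447R2.ML.rough_quot hab h1 h2 hp hpd rfl
  rw [← (Commute.all a b).geom_sum₂_mul p, Int.mul_ediv_cancel _ (by omega), ← h]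
  rfl

/-- **Main theorem.** -/
theorem result :
    -- at the amplitude `1 / (a - b)` the exponents are those of the conjecture
    (∀ a b : ℤ, -a < b → b < a → ∀ p : ℕ,
      (N a b (1 / ((a : ℝ) - b)) p : ℤ) = (a ^ p - b ^ p) / (a - b)) ∧
    (∀ a b : ℤ, IsCoprime a b → -a < b → b < a → ∀ p : ℕ, ¬ (p : ℤ) ∣ a - b →
      (Exponent a b (1 / ((a : ℝ) - b)) p ↔ p.Prime ∧ Prime ((a ^ p - b ^ p) / (a - b)))) ∧
    (∀ a b : ℤ, IsCoprime a b → 1 < a → -a < b → b < a → ∀ p q : ℕ, 1 ≤ p → p < q →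
      (N a b (1 / ((a : ℝ) - b)) q : ℤ) ≠ a ^ (q - p) * N a b (1 / ((a : ℝ) - b)) p) ∧
    -- close exponents, simultaneously for all pairs
    (∀ᵐ β : ℝ, 0 < β → ∀ a b : ℤ, 1 < a → -a < b → b < a → ∀ ε : ℝ, 0 < ε →
      ∃ P : ℕ, ∀ p q : ℕ, P ≤ p → p < q → Exponent a b β p → Exponent a b β q →
      (p : ℝ) / Real.log p ^ (1 + ε) ≤ q - p ∨
        ((N a b β q : ℤ) = a ^ (q - p) * N a b β p ∧ W a b β q = W a b β p ∧
          (a : ℝ) ^ (q - p) ≤ Real.log p ^ (1 + ε))) ∧
    -- sets of pairs of exponents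
    (∀ D : Set (ℕ × ℕ), (∀ z ∈ D, z.1 < z.2 ∧ z.2 ≤ 2 * z.1) →
      Summable (fun z : D => (Real.log z.1.1 / z.1.1) ^ 2) →
      ∀ᵐ β : ℝ, 0 < β → ∀ a b : ℤ, 1 < a → -a < b → b < a →
        {z | z ∈ D ∧ Exponent a b β z.1 ∧ Exponent a b β z.2 ∧
          W a b β z.1 ≠ W a b β z.2}.Finite) := by
  have hbd : ∀ (A : ℕ) (b : ℤ), |(b : ℝ)| < (A : ℝ) → ∀ p : ℕ,
      |(fun p : ℕ => -((b : ℝ) ^ p / ((A : ℝ) - b))) p| ≤ 1 / ((A : ℝ) - b) * |(b : ℝ)| ^ p := by
    intro A b hbr p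
    have hab : (0 : ℝ) < (A : ℝ) - b := by
      have := le_abs_self (b : ℝ)
      linarith
    simp only
    rw [abs_neg, abs_div, abs_pow, abs_of_pos hab]
    exact le_of_eq (by ring)
  refine ⟨fun a b h1 h2 p => special h1 h2 p, fun a b hab h1 h2 p hpd => ?_,
    fun a b hab ha h1 h2 p q hp hpq => ?_, ?_, fun D hD hs => ?_⟩
  · unfold Exponent
    refine and_congr_right fun hp => ?_
    rw [← W_special hab h1 h2 hp hpd]
    exact Nat.prime_iff_prime_int
  · rw [N_special h1 h2 q, N_special h1 h2 p]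
    intro h
    obtain ⟨m, rfl⟩ : ∃ m, q = m + 1 := ⟨q - 1, by omega⟩
    obtain ⟨k, hk⟩ : ∃ k, m + 1 - p = k + 1 := ⟨m - p, by omega⟩
    have h3 : ∑ i ∈ Finset.range (m + 1), a ^ i * b ^ (m + 1 - 1 - i) =
        a * (∑ i ∈ Finset.range m, a ^ i * b ^ (m + 1 - 1 - (i + 1))) + b ^ m := by
      rw [Finset.sum_range_succ', Finset.mul_sum, pow_zero, one_mul]
      congr 1
      refine Finset.sum_congr rfl fun i _ => ?_
      rw [pow_succ]
      ring
    rw [h3, hk, pow_succ] at h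
    have h4 : a ∣ b ^ m := by
      set S := ∑ i ∈ Finset.range m, a ^ i * b ^ (m + 1 - 1 - (i + 1)) with hS
      set T := ∑ i ∈ Finset.range p, a ^ i * b ^ (p - 1 - i) with hT
      exact ⟨a ^ k * T - S, by linear_combination h⟩
    have h5 : IsUnit a := (hab.pow_right (n := m)).isUnit_of_dvd' dvd_rfl h4
    have h6 := Int.isUnit_iff.1 h5
    omega
  · have h : ∀ a b : ℤ, ∀ᵐ β : ℝ, 1 < a → -a < b → b < a → 0 < β → ∀ ε : ℝ, 0 < ε →
      ∃ P : ℕ, ∀ p q : ℕ, P ≤ p → p < q → Exponent a b β p → Exponent a b β q →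
      (p : ℝ) / Real.log p ^ (1 + ε) ≤ q - p ∨
        ((N a b β q : ℤ) = a ^ (q - p) * N a b β p ∧ W a b β q = W a b β p ∧
          (a : ℝ) ^ (q - p) ≤ Real.log p ^ (1 + ε)) := by
      intro a b
      by_cases hc : 1 < a ∧ -a < b ∧ b < a
      swap
      · exact Eventually.of_forall fun β h1 h2 h3 => absurd ⟨h1, h2, h3⟩ hc
      obtain ⟨ha, h1, h2⟩ := hc
      obtain ⟨A, hA⟩ := Int.eq_ofNat_of_zero_le (show 0 ≤ a by omega)
      have hA2 : 2 ≤ A := by omega
      have hbr : |(b : ℝ)| < (A : ℝ) := by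
        have h3 : |b| < a := abs_lt.2 ⟨h1, h2⟩
        rw [hA] at h3
        exact_mod_cast h3
      have key := Pool.Agent.V60.Gap.spaced_floor hA2 (abs_nonneg _) hbr (hbd A b hbr)
      filter_upwards [key] with β h _ _ _ hβ ε hε
      obtain ⟨P, hP⟩ := h hβ ε hε
      refine ⟨P + A, fun p q hp hpq hep heq => ?_⟩
      rcases le_or_gt ((p : ℝ) / Real.log p ^ (1 + ε)) (q - p) with h1 | h1
      · exact Or.inl h1
      right
      have e' : (a : ℝ) = (A : ℝ) := by rw [hA]; simp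
      have e : ∀ m : ℕ, (fun p : ℕ => ⌊β * (A : ℝ) ^ p + (fun p : ℕ => -((b : ℝ) ^ p / ((A : ℝ) - b))) p⌋₊) m =
          N a b β m := by
        intro m
        unfold N
        rw [e']
        simp only [← sub_eq_add_neg]
      have h2 := hP p q (by omega) hep.1 heq.1 hpq h1 (by rw [e]; exact hep.2) (by rw [e]; exact heq.2)
      rw [e, e] at h2
      refine ⟨?_, Pool.Agent.V60.Gap.same_prime (b := A) (by omega) (by omega) hpq.le h2.1 hep.2
        heq.2, by rw [e']; exact h2.2⟩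
      rw [h2.1, hA]
      push_cast
      rfl
    filter_upwards [ae_all_iff.2 fun a => ae_all_iff.2 (h a)] with β hβ h0 a b ha h1 h2 ε hε
    exact hβ a b ha h1 h2 h0 ε hε
  · have h : ∀ a b : ℤ, ∀ᵐ β : ℝ, 1 < a → -a < b → b < a → 0 < β →
        {z | z ∈ D ∧ Exponent a b β z.1 ∧ Exponent a b β z.2 ∧
          W a b β z.1 ≠ W a b β z.2}.Finite := by
      intro a b
      by_cases hc : 1 < a ∧ -a < b ∧ b < a
      swap
      · exact Eventually.of_forall fun β h1 h2 h3 => absurd ⟨h1, h2, h3⟩ hc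
      obtain ⟨ha, h1, h2⟩ := hc
      obtain ⟨A, hA⟩ := Int.eq_ofNat_of_zero_le (show 0 ≤ a by omega)
      have hA2 : 2 ≤ A := by omega
      have hbr : |(b : ℝ)| < (A : ℝ) := by
        have h3 : |b| < a := abs_lt.2 ⟨h1, h2⟩
        rw [hA] at h3
        exact_mod_cast h3
      have key := Pool.Agent.V60.Gap.set_floor hA2 (abs_nonneg _) hbr (hbd A b hbr) D hD hs
      filter_upwards [key] with β h _ _ _ hβ
      have h1 := h hβ
      have e' : (a : ℝ) = (A : ℝ) := by rw [hA]; simp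
      have e : ∀ m : ℕ, ⌊β * (A : ℝ) ^ m + -((b : ℝ) ^ m / ((A : ℝ) - b))⌋₊ = N a b β m := by
        intro m
        unfold N
        rw [e', ← sub_eq_add_neg]
      simp only [e] at h1
      refine (h1.union (Pool.Agent.V60.Gap.finite_small D hD A)).subset ?_
      rintro z ⟨hz, h2, h3, h4⟩
      rcases lt_or_ge z.1 A with h5 | h5
      · exact Or.inr ⟨hz, h5⟩
      · refine Or.inl ⟨hz, h2.2, h3.2, fun h6 => h4 ?_⟩
        have h7 := (hD z hz).1
        exact (Pool.Agent.V60.Gap.same_prime (b := A) (by omega) (by omega) h7.le h6 h2.2 h3.2).symm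
    filter_upwards [ae_all_iff.2 fun a => ae_all_iff.2 (h a)] with β hβ h0 a b ha h1 h2
    exact hβ a b ha h1 h2 h0

end Pool.Agent.Results.MP_de9007_nt.SmallGaps
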